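import Pool.Agent.Helper62.PM.St4

/-! # Project PM, module NE -/

set_option autoImplicit false

open MeasureTheory Metric Set Filter Topology
open scoped RealInnerProductSpace ContDiff

namespace Pool.Agent.Helper16.PM

open Pool.Agent.Helper62.PM
open Pool.Agent.Helper62.Mink

/-- a unit vector orthogonal to two given vectors -/
private theorem exV {n : ℕ} (hn : 3 ≤ n) (e a : E n) :
    ∃ v : E n, ‖v‖ = 1 ∧ (inner ℝ v e : ℝ) = 0 ∧ (inner ℝ v a : ℝ) = 0 := by
  classical
  have h1 : Module.finrank ℝ (Submodule.span ℝ ({e, a} : Set (E n))) ≤ 2 := by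
    have h := finrank_span_finset_le_card (R := ℝ) ({e, a} : Finset (E n))
    have h2 : ({e, a} : Finset (E n)).card ≤ 2 := Finset.card_le_two
    have h3 : (({e, a} : Finset (E n)) : Set (E n)) = {e, a} := by simp
    rw [h3] at h
    exact h.trans h2
  have h2 : (Submodule.span ℝ ({e, a} : Set (E n)))ᗮ ≠ ⊥ := by
    intro h
    have h3 := Submodule.finrank_add_finrank_orthogonal (Submodule.span ℝ ({e, a} : Set (E n)))
    rw [h, finrank_bot, finrank_euclideanSpace_fin] at h3
    omega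
  obtain ⟨v, hv, hv0⟩ := Submodule.exists_mem_ne_zero_of_ne_bot h2
  have hn0 : ‖v‖ ≠ 0 := norm_ne_zero_iff.2 hv0
  have he := Submodule.inner_left_of_mem_orthogonal (Submodule.subset_span (by simp : e ∈ ({e, a} : Set (E n)))) hv
  have ha := Submodule.inner_left_of_mem_orthogonal (Submodule.subset_span (by simp : a ∈ ({e, a} : Set (E n)))) hv
  refine ⟨‖v‖⁻¹ • v, ?_, ?_, ?_⟩
  · rw [norm_smul, norm_inv, norm_norm, inv_mul_cancel₀ hn0]
  · rw [real_inner_smul_left, he, mul_zero]
  · rw [real_inner_smul_left, ha, mul_zero]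

/-- the average over the rotations in a plane -/
private theorem avg {n : ℕ} {v a e : E n} (hA : StA) (hva : ON (v, a)) (hve : (inner ℝ v e : ℝ) = 0)
    (hae : (inner ℝ a e : ℝ) = 0) (P : Measure (sphere (0 : E n) 1)) (hP : IsFiniteMeasure P)
    (hZ : Zon e P) (ψ : E n → ℝ) (hψ : Continuous ψ) :
    2 * Real.pi * ∫ w : sphere (0 : E n) 1, ψ (w : E n) ∂P =
      ∫ w : sphere (0 : E n) 1, (∫ α in (0 : ℝ)..(2 * Real.pi), ψ (rp v a α (w : E n))) ∂P := by
  obtain ⟨hA1, -, -, -⟩ := hA n v a hva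
  have hfix : ∀ α : ℝ, rp v a α e = e := by
    intro α
    simp only [rp, hve, hae]
    simp
  have hn1 : ∀ (α : ℝ) (w : sphere (0 : E n) 1), ‖rp v a α (w : E n)‖ = 1 := by
    intro α w
    obtain ⟨θ, -, hθ⟩ := hA1 α
    rw [← hθ, LinearIsometryEquiv.norm_map]
    simpa using w.2
  have hcont : Continuous (fun q : ℝ × sphere (0 : E n) 1 => ψ (rp v a q.1 (q.2 : E n))) := by
    refine hψ.comp ?_
    simp only [rp]
    fun_prop
  obtain ⟨B, hB⟩ : ∃ B : ℝ, ∀ x : E n, ‖x‖ = 1 → ‖ψ x‖ ≤ B := by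
    obtain ⟨B, hB⟩ := (isCompact_sphere (0 : E n) 1).exists_bound_of_continuousOn hψ.continuousOn
    exact ⟨B, fun x hx => hB x (by simpa using hx)⟩
  have hint : Integrable (Function.uncurry (fun (α : ℝ) (w : sphere (0 : E n) 1) =>
      ψ (rp v a α (w : E n)))) ((volume.restrict (Ioc (0 : ℝ) (2 * Real.pi))).prod P) := by
    refine Integrable.of_bound hcont.aestronglyMeasurable B (Eventually.of_forall fun q => ?_)
    exact hB _ (hn1 _ _)
  have h1 : ∀ α : ℝ, ∫ w : sphere (0 : E n) 1, ψ (rp v a α (w : E n)) ∂P =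
      ∫ w : sphere (0 : E n) 1, ψ (w : E n) ∂P := by
    intro α
    obtain ⟨θ, hrot, hθ⟩ := hA1 α
    have h := hZ θ hrot (by rw [hθ, hfix]) ψ hψ
    simpa only [hθ] using h
  have hpi : (0 : ℝ) ≤ 2 * Real.pi := by positivity
  have h2 : ∫ α in (0 : ℝ)..(2 * Real.pi), ∫ w : sphere (0 : E n) 1, ψ (rp v a α (w : E n)) ∂P =
      2 * Real.pi * ∫ w : sphere (0 : E n) 1, ψ (w : E n) ∂P := by
    simp only [h1]
    rw [intervalIntegral.integral_const, sub_zero, smul_eq_mul]
  rw [← h2, intervalIntegral.integral_of_le hpi]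
  simp only [intervalIntegral.integral_of_le hpi]
  exact integral_integral_swap hint

theorem hNE : StA → StNE := by
  intro hA n e a P hn hea hP hZ φ hφ
  obtain ⟨he, ha, hea0⟩ := hea
  simp only at he ha hea0
  obtain ⟨v, hv, hve, hva⟩ := exV hn e a
  have hae : (inner ℝ a e : ℝ) = 0 := by rw [real_inner_comm]; exact hea0
  have hON : ON (v, a) := ⟨hv, ha, hva⟩
  have hav : (inner ℝ a v : ℝ) = 0 := by rw [real_inner_comm]; exact hva
  have haa : (inner ℝ a a : ℝ) = 1 := by rw [real_inner_self_eq_norm_sq, ha]; norm_num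
  obtain ⟨-, -, -, -⟩ := hA n v a hON
  have hς : Continuous (fun w : E n => φ (w - (2 * (inner ℝ a w : ℝ)) • a)) := by
    refine hφ.comp ?_
    fun_prop
  have k1 := avg hA hON hve hae P hP hZ φ hφ
  have k2 := avg hA hON hve hae P hP hZ (fun w : E n => φ (w - (2 * (inner ℝ a w : ℝ)) • a)) hς
  have key : ∀ w : sphere (0 : E n) 1,
      (∫ α in (0 : ℝ)..(2 * Real.pi), (fun w : E n => φ (w - (2 * (inner ℝ a w : ℝ)) • a))
        (rp v a α (w : E n))) = ∫ α in (0 : ℝ)..(2 * Real.pi), φ (rp v a α (w : E n)) := by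
    intro w
    obtain ⟨ρ, γ, hp, hs⟩ : ∃ ρ γ : ℝ, (inner ℝ v (w : E n) : ℝ) = ρ * Real.cos γ ∧
        (inner ℝ a (w : E n) : ℝ) = ρ * Real.sin γ := by
      refine ⟨‖(⟨inner ℝ v (w : E n), inner ℝ a (w : E n)⟩ : ℂ)‖,
        Complex.arg ⟨inner ℝ v (w : E n), inner ℝ a (w : E n)⟩, ?_, ?_⟩
      · rw [Complex.norm_mul_cos_arg]
      · rw [Complex.norm_mul_sin_arg]
    have h1 : ∀ α : ℝ, rp v a α (w : E n) - (2 * (inner ℝ a (rp v a α (w : E n)) : ℝ)) • a =
        rp v a (-(2 * γ) - α) (w : E n) := by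
      intro α
      have hi : (inner ℝ a (rp v a α (w : E n)) : ℝ) =
          Real.sin α * (ρ * Real.cos γ) + Real.cos α * (ρ * Real.sin γ) := by
        simp only [rp, inner_add_right, real_inner_smul_right, hav, haa, hp, hs]
        ring
      rw [hi]
      have c1 : Real.cos (-(2 * γ) - α) * (ρ * Real.cos γ) -
          Real.sin (-(2 * γ) - α) * (ρ * Real.sin γ) =
          Real.cos α * (ρ * Real.cos γ) - Real.sin α * (ρ * Real.sin γ) := by
        have d1 : Real.cos (-(2 * γ) - α) * (ρ * Real.cos γ) -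
            Real.sin (-(2 * γ) - α) * (ρ * Real.sin γ) = ρ * Real.cos (-(2 * γ) - α + γ) := by
          rw [Real.cos_add]; ring
        have d2 : Real.cos α * (ρ * Real.cos γ) - Real.sin α * (ρ * Real.sin γ) =
            ρ * Real.cos (α + γ) := by
          rw [Real.cos_add]; ring
        have d3 : -(2 * γ) - α + γ = -(α + γ) := by ring
        rw [d1, d2, d3, Real.cos_neg]
      have c2 : Real.sin (-(2 * γ) - α) * (ρ * Real.cos γ) +
          Real.cos (-(2 * γ) - α) * (ρ * Real.sin γ) =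
          -(Real.sin α * (ρ * Real.cos γ) + Real.cos α * (ρ * Real.sin γ)) := by
        have d1 : Real.sin (-(2 * γ) - α) * (ρ * Real.cos γ) +
            Real.cos (-(2 * γ) - α) * (ρ * Real.sin γ) = ρ * Real.sin (-(2 * γ) - α + γ) := by
          rw [Real.sin_add]; ring
        have d2 : Real.sin α * (ρ * Real.cos γ) + Real.cos α * (ρ * Real.sin γ) =
            ρ * Real.sin (α + γ) := by
          rw [Real.sin_add]; ring
        have d3 : -(2 * γ) - α + γ = -(α + γ) := by ring
        rw [d1, d2, d3, Real.sin_neg]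
        ring
      simp only [rp, hp, hs]
      have c3 : (Real.cos (-(2 * γ) - α) - 1) * (ρ * Real.cos γ) -
          Real.sin (-(2 * γ) - α) * (ρ * Real.sin γ) =
          (Real.cos α - 1) * (ρ * Real.cos γ) - Real.sin α * (ρ * Real.sin γ) := by
        linear_combination c1
      have c4 : Real.sin (-(2 * γ) - α) * (ρ * Real.cos γ) +
          (Real.cos (-(2 * γ) - α) - 1) * (ρ * Real.sin γ) =
          (Real.sin α * (ρ * Real.cos γ) + (Real.cos α - 1) * (ρ * Real.sin γ)) -
            2 * (Real.sin α * (ρ * Real.cos γ) + Real.cos α * (ρ * Real.sin γ)) := by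
        linear_combination c2
      rw [c3, c4]
      module
    simp only [h1]
    have h2 := intervalIntegral.integral_comp_sub_left (a := 0) (b := 2 * Real.pi)
      (fun t : ℝ => φ (rp v a t (w : E n))) (-(2 * γ))
    rw [h2]
    have hper : Function.Periodic (fun t : ℝ => φ (rp v a t (w : E n))) (2 * Real.pi) := by
      intro t
      simp only [rp, Real.cos_add_two_pi, Real.sin_add_two_pi]
    have h3 := hper.intervalIntegral_add_eq (-(2 * γ) - 2 * Real.pi) 0
    rw [sub_add_cancel, zero_add] at h3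
    rw [sub_zero]
    exact h3
  have k3 : 2 * Real.pi * ∫ w : sphere (0 : E n) 1,
      φ ((w : E n) - (2 * (inner ℝ a (w : E n) : ℝ)) • a) ∂P =
      2 * Real.pi * ∫ w : sphere (0 : E n) 1, φ (w : E n) ∂P := by
    rw [k1]
    refine k2.trans ?_
    exact integral_congr_ae (Eventually.of_forall key)
  exact mul_left_cancel₀ (by positivity) k3

end Pool.Agent.Helper16.PM
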